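import Pool.Agent.K1H57.HC.Main

/-!
# The Hopf sign for a nonpositive curvature operator plus commuting skew forms of rank at most eight

`CommSkew W a`: the operators `a s` (`s < n`, any `n`) are skew-adjoint, commute pairwise, and have
their images in the subspace `W`.
`opCurv a`: the sum of the curvature tensors `skewCurv (⟨a s x, y⟩)`,
`skewCurv A (x,y,z,w) = 2A(x,y)A(z,w) + A(x,z)A(y,w) - A(x,w)A(y,z)`. (The sectional curvature of
`skewCurv A` is `3 A(x,y)²`; its curvature operator has negative eigenvalues when the rank of `A` is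
at least four.)
`PlusComm δ R`: `-R = P + opCurv a`, where the curvature operator of the algebraic curvature tensor
`P` is at least `δ` and `CommSkew W a` with `dim W ≤ 8`.

(1) Superadditivity in every even dimension: if `P` has nonnegative curvature operator, then the
Gauss–Bonnet–Chern integrand of `P + opCurv a` is at least the sum of those of `P` and `opCurv a`, and
that of `opCurv a` is nonnegative.
(2) If `R` satisfies `PlusComm δ R`, then `(-1)^m` times the Gauss–Bonnet–Chern integrand of `R` is at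
least its value for constant curvature `-δ`.
(3) The integrated forms, with the strict inequality.
-/

set_option autoImplicit false

namespace Pool.Agent.Results.MP_5a30bb_gt.CommutingSkewForms

open Pool.Agent.W666.GB Pool.Agent.W669.HD Pool.Agent.Y195.HF Pool.Agent.K1H57.HC MeasureTheory

theorem result :
    -- (1) superadditivity
    (∀ (m : ℕ) (V : Type) [NormedAddCommGroup V] [InnerProductSpace ℝ V]
      (e : OrthonormalBasis (Fin m × Bool) ℝ V) (P : V → V → V → V → ℝ) (W : Submodule ℝ V) (n : ℕ)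
      (a : Fin n → V →ₗ[ℝ] V), 1 ≤ m → AlgCurv P → OpNonneg P → Module.finrank ℝ W ≤ 8 →
        CommSkew W a → 0 ≤ gbc e (opCurv a) ∧
          gbc e P + gbc e (opCurv a) ≤ gbc e (addT P (opCurv a))) ∧
    -- (2) the pointwise inequality
    (∀ (m : ℕ) (V : Type) [NormedAddCommGroup V] [InnerProductSpace ℝ V]
      (e : OrthonormalBasis (Fin m × Bool) ℝ V) (R : V → V → V → V → ℝ) (δ : ℝ),
      AlgCurv R → 0 ≤ δ → PlusComm δ R → roundGB m δ ≤ (-1) ^ m * gbc e R) ∧
    -- (3) the integrated forms
    (∀ (m : ℕ) (M : Type) [MeasurableSpace M] (μ : Measure M) (K : CurvField m M) (δ : M → ℝ),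
      (∀ p, 0 ≤ δ p ∧ PlusComm (δ p) (K.R p)) →
      0 ≤ (-1) ^ m * ∫ p, K.gb p ∂μ ∧
      (Integrable K.gb μ → Integrable (fun p => roundGB m (δ p)) μ →
        ∫ p, roundGB m (δ p) ∂μ ≤ (-1) ^ m * ∫ p, K.gb p ∂μ) ∧
      (Integrable K.gb μ → μ {p | 0 < δ p} ≠ 0 → 0 < (-1) ^ m * ∫ p, K.gb p ∂μ)) :=
  ⟨fun _ _ _ _ e _ _ _ _ hm hP hPn hW ha => super8 e hm hP hPn hW ha,
    fun _ _ _ _ e _ _ hR hδ h => comm_bound e hR hδ h,
    fun _ _ _ μ K δ h => field_comm μ K δ h⟩

end Pool.Agent.Results.MP_5a30bb_gt.CommutingSkewForms
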