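import Pool.Agent.K1H63.Neg.Core

/-!
# The Hopf sign for closed Einstein six-manifolds with an upper curvature bound

Let `(M, g)` be a closed Riemannian manifold of dimension six with `Ric = -5 κ g`, `κ > 0` (the mean of
the sectional curvatures is `-κ`), and let `d` be a function with `d ≤ 9 / 14` such that the sectional
curvatures at `p` are at most `-d (p) κ` (no lower bound). Then

  `∫ gbc ≤ - roundGB κ · ∫ (32 d³ - 136 d² + 176 d - 45) / 27`,

`roundGB κ` being the absolute value of the Gauss-Bonnet-Chern integrand for constant curvature `-κ`.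
The polynomial is `1` at `d = 1`, and it is positive for `d ≥ 0.337` (`d ≤ 9 / 14`). So the Euler
characteristic of a closed Einstein six-manifold with `Ric = -5 κ g`, `K ≤ -0.337 κ` is negative, as the
Hopf conjecture predicts. The hypothesis leaves room for
`-3.65 κ ≤ K ≤ -0.337 κ`. It may fail on a part of `M` (the function `d` may be negative there) as long
as the integral of the polynomial is positive.

Proof. The curvature tensor of an Einstein metric satisfies the Bochner formula
`∫ (R_{abcd} R_{cdef} R_{efab} + 4 R_{acbd} R_{cedf} R_{eafb} + 10 κ |R|²) = ∫ |∇R|² ≥ 0`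
(`Ric = -5 κ g`), so a nonnegative multiple of the left hand side may be added to the integrand. For the
multiple `64 / 5` the sum is (`κ = 1`, `S = -R`) minus the average over the unit vectors `x` of
`64 (1250 - 328 tr J² + 96 tr J³)`, where `J` is the Jacobi operator of `x` for `S`: for this multiple
only, the sum depends on the eigenvalues of the Jacobi operators alone. They are at least `d`, their sum
is `5`, and the sharp lower bound follows from two symmetric cubic inequalities for nonnegative numbers.

Modelling. `FrameCalculus P μ` is the differential calculus on the orthonormal frame bundle `P` of a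
closed Riemannian manifold of dimension six: an algebra `S` of integrable real functions on `P` (the
smooth functions), derivations `H i` of `S` (the canonical horizontal vector fields) and `V a b` (the
fundamental vertical vector fields), and elements `R a b c d` of `S` (the components of the curvature
tensor in the frame), with the algebraic symmetries of `R`, the second Bianchi identity, Cartan's
structure equation for `[H i, H j]`, the action of `V a b` on `R`, and the divergence theorem
`∫ H i f dμ = 0`. All of these are standard facts for closed Riemannian manifolds; that they hold there,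
and the Gauss-Bonnet-Chern theorem, are not formalised. The Bochner formula is proved from them in
`Pool/Agent/K1H63/Boch/`. The averages over the sphere and the formula for the integrand in terms of
cubic invariants come from `Pool/Agent/H933R2/Hopf/`, the eigenframe from `Pool/Agent/W714/HE/` (both in
the starting repository).
-/

namespace Pool.Agent.Results.MP_5a30bb_gt.EinsteinUpperBound

open Hopf6 MeasureTheory Pool.Agent.K1H63.Boch

/-- Closed Einstein six-manifolds of negative scalar curvature with an upper curvature bound. -/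
theorem result :
    -- the integrated bound, with a bound of the sectional curvature that may depend on the point
    (∀ (P : Type) [MeasurableSpace P] (μ : Measure P) [IsFiniteMeasure μ] (F : FrameCalculus P μ)
      (κ : ℝ) (d : P → ℝ), 0 < κ → (∀ p, IsEinstein (F.T p) (-(5 * κ))) →
      (∀ p, d p ≤ 9 / 14) → (∀ p, SecLE (F.T p) (-(d p * κ))) →
      Integrable (fun p => (32 * d p ^ 3 - 136 * d p ^ 2 + 176 * d p - 45) / 27) μ →
      ∫ p, F.gbc p ∂μ ≤
        -(roundGB κ * ∫ p, (32 * d p ^ 3 - 136 * d p ^ 2 + 176 * d p - 45) / 27 ∂μ)) ∧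
    -- the polynomial is positive from `0.337` on
    (∀ d : ℝ, 337 / 1000 ≤ d → d ≤ 9 / 14 →
      1 / 400 ≤ (32 * d ^ 3 - 136 * d ^ 2 + 176 * d - 45) / 27) ∧
    -- the sign of the Gauss-Bonnet-Chern integral
    (∀ (P : Type) [MeasurableSpace P] (μ : Measure P) [IsFiniteMeasure μ] (F : FrameCalculus P μ)
      (κ : ℝ), μ ≠ 0 → 0 < κ → (∀ p, IsEinstein (F.T p) (-(5 * κ))) →
      (∀ p, SecLE (F.T p) (-(337 / 1000 * κ))) → ∫ p, F.gbc p ∂μ < 0) := by
  have hpsi : ∀ d : ℝ, (32 * d ^ 3 - 136 * d ^ 2 + 176 * d - 45) / 27 =
      Pool.Agent.K1H63.Neg.psi d / 90 := by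
    intro d
    unfold Pool.Agent.K1H63.Neg.psi
    ring
  have h1 : ∀ (P : Type) [MeasurableSpace P] (μ : Measure P) [IsFiniteMeasure μ]
      (F : FrameCalculus P μ) (κ : ℝ) (d : P → ℝ), 0 < κ → (∀ p, IsEinstein (F.T p) (-(5 * κ))) →
      (∀ p, d p ≤ 9 / 14) → (∀ p, SecLE (F.T p) (-(d p * κ))) →
      Integrable (fun p => (32 * d p ^ 3 - 136 * d p ^ 2 + 176 * d p - 45) / 27) μ →
      ∫ p, F.gbc p ∂μ ≤
        -(roundGB κ * ∫ p, (32 * d p ^ 3 - 136 * d p ^ 2 + 176 * d p - 45) / 27 ∂μ) := by
    intro P _ μ _ F κ d hκ hE hd h hi
    simp only [hpsi] at hi ⊢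
    have hi' : Integrable (fun p => Pool.Agent.K1H63.Neg.psi (d p)) μ := by
      refine (hi.const_mul 90).congr (Filter.Eventually.of_forall fun p => ?_)
      change 90 * (Pool.Agent.K1H63.Neg.psi (d p) / 90) = _
      ring
    exact F.integral_negEin hκ hd hi' hE h
  have h2 : ∀ d : ℝ, 337 / 1000 ≤ d → d ≤ 9 / 14 →
      1 / 400 ≤ (32 * d ^ 3 - 136 * d ^ 2 + 176 * d - 45) / 27 := by
    intro d hd1 hd2
    have a : 0 ≤ (d - 337 / 1000) * (9 / 14 - d) := mul_nonneg (by linarith) (by linarith)
    have b : 0 ≤ (d - 337 / 1000) * (9 / 14 - d) * (9 / 14 - d) := mul_nonneg a (by linarith)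
    nlinarith [a, b]
  refine ⟨h1, h2, ?_⟩
  intro P _ μ _ F κ hμ hκ hE h
  have h3 := h1 P μ F κ (fun _ => 337 / 1000) hκ hE (fun _ => by norm_num) h
    (integrable_const _)
  have h4 : 0 < roundGB κ := by
    have hpi := Real.pi_pos
    unfold roundGB
    positivity
  have h5 : 0 < μ.real Set.univ := by
    rw [measureReal_def]
    refine ENNReal.toReal_pos ?_ (measure_ne_top μ _)
    exact fun h0 => hμ (Measure.measure_univ_eq_zero.1 h0)
  rw [integral_const, smul_eq_mul] at h3
  have h6 := h2 (337 / 1000) le_rfl (by norm_num)
  have h7 := mul_pos h4 (mul_pos h5 (lt_of_lt_of_le (by norm_num : (0 : ℝ) < 1 / 400) h6))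
  linarith

end Pool.Agent.Results.MP_5a30bb_gt.EinsteinUpperBound
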