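import Pool.Agent.K1H63.T2.Final

/-!
# The Hopf sign in dimension six when a plane of maximal sectional curvature is nearly
curvature-orthogonal to its complement

At a point of a Riemannian six-manifold let all sectional curvatures be at most `-κ`, with equality
for the plane of the orthonormal pair `z`, `w`, and let `|R(z, w, u, v)| ≤ r` for all orthonormal
pairs `u`, `v` orthogonal to `z`, `w`, where `0 ≤ r` and `2 r ≤ κ`. Then minus the
Gauss-Bonnet-Chern integrand is at least its value for the constant curvature `-(κ - 2 r)`.

For `r = 0` and `κ = 0` this says: the Gauss-Bonnet-Chern integrand has the sign of the Hopf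
conjecture if the sectional curvatures are nonpositive and some plane is in the kernel of the
curvature operator. Only real sectional curvatures are used. (Without a hypothesis on
`R(z, w, u, v)` the pointwise statement is false in dimension six.)

By the first order conditions at a maximum, `R(z, w, z, u) = R(z, w, w, u) = 0` for `u` orthogonal to
the plane, so for `r = 0` the bivector `z ∧ w` is an eigenvector of the curvature operator.

(2) is the special case in which the hypothesis is verified by sectional curvatures only: it is enough
that the planes spanned by `z` or `w` and a vector orthogonal to both have sectional curvature at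
least `-Λ`, where `4 Λ ≤ 7 κ`; no lower bound is required for the other planes.

The proof is in `Pool/Agent/K1H63/T2/` and the files it imports. For `κ = 0`, `r = 0` the block of
`-R` on the bivectors which mix the plane with its complement is nonnegative and, by the Bianchi
identity, symmetric in two by two block form, so that it is a sum of squares of DECOMPOSABLE mixed
bivectors (`sep`). For such sums the integrand is a cubic form in the atoms, and the nonnegativity of
the sectional curvatures is used for the planes given by pairs of atoms, after moving them by a field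
of skew matrices which solves a linear system; the remaining terms are traces of squares of matrices
which the linear system makes symmetric (`core`, `trace_sq_nonneg`). The general case follows by
subtracting squares of decomposable bivectors.
-/

set_option autoImplicit false

namespace Pool.Agent.Results.MP_5a30bb_gt.ExtremalPlane

open Pool.Agent.W666.GB Pool.Agent.K1H63.T2 MeasureTheory

/-- **Hopf sign in dimension six**, when the maximal sectional curvature is attained at a plane which
is nearly curvature-orthogonal to its complement. -/
theorem result :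
    -- (1) the pointwise inequality
    (∀ (V : Type) [NormedAddCommGroup V] [InnerProductSpace ℝ V]
      (e : OrthonormalBasis (Fin 3 × Bool) ℝ V) (R : V → V → V → V → ℝ), AlgCurv R →
      ∀ κ r : ℝ, 0 ≤ r → 2 * r ≤ κ → NearPlane R κ r →
        roundGB 3 (κ - 2 * r) ≤ (-1) ^ 3 * gbc e R) ∧
    -- (2) the hypothesis in terms of sectional curvatures only
    (∀ (V : Type) [NormedAddCommGroup V] [InnerProductSpace ℝ V]
      (e : OrthonormalBasis (Fin 3 × Bool) ℝ V) (R : V → V → V → V → ℝ), AlgCurv R →
      ∀ κ Λ : ℝ, κ ≤ Λ → 4 * Λ ≤ 7 * κ →
      (∀ x y : V, ‖x‖ = 1 → ‖y‖ = 1 → inner ℝ x y = 0 → R x y x y ≤ -κ) →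
      ∀ z w : V, ‖z‖ = 1 → ‖w‖ = 1 → inner ℝ z w = 0 → R z w z w = -κ →
      (∀ u : V, ‖u‖ = 1 → inner ℝ z u = 0 → inner ℝ w u = 0 →
        -Λ ≤ R z u z u ∧ -Λ ≤ R w u w u) →
        roundGB 3 ((7 * κ - 4 * Λ) / 3) ≤ (-1) ^ 3 * gbc e R) ∧
    -- (3) the integrated forms
    (∀ (M : Type) [MeasurableSpace M] (μ : Measure M) (K : CurvField 3 M) (κ r : M → ℝ),
      (∀ p, 0 ≤ r p ∧ 2 * r p ≤ κ p ∧ NearPlane (K.R p) (κ p) (r p)) →
      0 ≤ (-1) ^ 3 * ∫ p, K.gb p ∂μ ∧
      (Integrable K.gb μ → Integrable (fun p => roundGB 3 (κ p - 2 * r p)) μ →
        ∫ p, roundGB 3 (κ p - 2 * r p) ∂μ ≤ (-1) ^ 3 * ∫ p, K.gb p ∂μ) ∧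
      (Integrable K.gb μ → μ {p | 2 * r p < κ p} ≠ 0 → 0 < (-1) ^ 3 * ∫ p, K.gb p ∂μ)) := by
  refine ⟨fun _ _ _ e _ hR _ _ hr hκ hE => pointN e hR hr hκ hE, ?_,
    fun _ _ μ K κ r h => fieldN μ K κ r h⟩
  intro V _ _ e R hR κ Λ h1 h2 hsec z w hz hw hzw hval hlow
  have h3 := near_of_sec hR hsec hz hw hzw hval hlow
  have h4 := pointN e hR (by linarith) (by linarith) h3
  have h5 : κ - 2 * (2 / 3 * (Λ - κ)) = (7 * κ - 4 * Λ) / 3 := by ring
  rw [h5] at h4
  exact h4

end Pool.Agent.Results.MP_5a30bb_gt.ExtremalPlane
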