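import Pool.Agent.K1H56.HB3.Final

/-!
# The Hopf sign in dimension six when the curvature operator respects a splitting `3 + 3`

Let `S` be an algebraic curvature tensor in dimension six. A splitting of `V` (or of its
complexification) into two subspaces of dimension three, not necessarily orthogonal, splits the
bivectors into three pieces. `RealSplit S E E'` (`Pool/Agent/K1H56/HB3/Real.lean`) and
`CxSplit e S A` (`Pool/Agent/K1H56/HB3/Final.lean`) say that the (Hermitian extension of the)
curvature operator respects the three pieces; `CxSplit` includes that the curvature operator is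
nonpositive on `z ∧ w` for `z`, `w` in the pieces of the splitting of the complexification. No other
curvature bound is assumed in (1) and (5).

(1) The Gauss–Bonnet–Chern integrand has the sign of the Hopf conjecture for a complex splitting.
(2) The main example: `S` is invariant under the circle `exp (t J)` of a complex structure `J`
(`CircleInv`, `Pool/Agent/K1H56/HB3/Cx.lean`; for orthogonal `J` this is Gray's second curvature
identity, and it holds for Kähler curvature tensors), and the curvature is nonpositive on `z ∧ w` and
`z ∧ conj w` for `z`, `w` of type `(1, 0)`.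
(3) If `S` has nonpositive sectional curvature and a real or complex splitting, then minus the
integrand of `S - ∑ (x k ∧ y k)² - δ`, for arbitrary vectors `x k`, `y k` and `δ ≥ 0`, is at least
its value for the constant curvature `-δ`.
(4), (5) The integrated forms.

Proof (`Pool/Agent/K1H56/HB3/`). In a frame adapted to the splitting only two kinds of terms survive in
the integrand (`GG_split`): the cubic form `Z0` of the mixed block, and `Z1`, which is bilinear in the
two pure blocks and linear in the mixed block. On `ℂ³` every bivector is decomposable, so the pure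
blocks are sums of squares and `Z1 ≥ 0` (`Z1_nonneg`). `Z0` is the cubic form of a block which is
nonnegative on decomposable tensors of `ℂ³ ⊗ ℂ³`; its nonnegativity is `H864R3.core_nonneg` of the
starting library. For a real splitting the mixed block is nonnegative on complex decomposable tensors
by the Bianchi identity. The sums with squares in (3) use `Pool.Agent.Y519.HB.six_super` of the
starting library.
-/

set_option autoImplicit false

namespace Pool.Agent.Results.MP_5a30bb_gt.SplittingThreeThree

open Pool.Agent.W666.GB Pool.Agent.TH598.GV Pool.Agent.K1H56.HB3 MeasureTheory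

/-- **Hopf sign in dimension six**, when the curvature operator respects a splitting `3 + 3`. -/
theorem result :
    -- (1) the sign for a complex splitting
    (∀ (V : Type) [NormedAddCommGroup V] [InnerProductSpace ℝ V]
      (e : OrthonormalBasis (Fin 3 × Bool) ℝ V) (S : V → V → V → V → ℝ), AlgCurv S →
      ∀ A, CxSplit e S A → 0 ≤ (-1) ^ 3 * gbc e S) ∧
    -- (2) circle invariant curvature tensors
    (∀ (V : Type) [NormedAddCommGroup V] [InnerProductSpace ℝ V]
      (e : OrthonormalBasis (Fin 3 × Bool) ℝ V) (S : V → V → V → V → ℝ), AlgCurv S →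
      ∀ J : V →ₗ[ℝ] V, CircleInv S J →
      (∀ x u, cxs S x (J x) u (J u) ≤ 0 ∧ cxs S x (J x) u (-J u) ≤ 0) → ∃ A, CxSplit e S A) ∧
    -- (3) sums with squares of decomposable bivectors
    (∀ (V : Type) [NormedAddCommGroup V] [InnerProductSpace ℝ V]
      (e : OrthonormalBasis (Fin 3 × Bool) ℝ V) (R : V → V → V → V → ℝ) (δ : ℝ), 0 ≤ δ →
      PlusSplit e δ R → roundGB 3 δ ≤ (-1) ^ 3 * gbc e R) ∧
    -- (4) the integrated forms
    (∀ (M : Type) [MeasurableSpace M] (μ : Measure M) (K : CurvField 3 M) (δ : M → ℝ),
      (∀ p, 0 ≤ δ p ∧ PlusSplit (K.e p) (δ p) (K.R p)) →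
      0 ≤ (-1) ^ 3 * ∫ p, K.gb p ∂μ ∧
      (Integrable K.gb μ → Integrable (fun p => roundGB 3 (δ p)) μ →
        ∫ p, roundGB 3 (δ p) ∂μ ≤ (-1) ^ 3 * ∫ p, K.gb p ∂μ) ∧
      (Integrable K.gb μ → μ {p | 0 < δ p} ≠ 0 → 0 < (-1) ^ 3 * ∫ p, K.gb p ∂μ)) ∧
    (∀ (M : Type) [MeasurableSpace M] (μ : Measure M) (K : CurvField 3 M),
      (∀ p, ∃ A, CxSplit (K.e p) (K.R p) A) → 0 ≤ (-1) ^ 3 * ∫ p, K.gb p ∂μ) :=
  ⟨fun _ _ _ e _ hS _ hA => sign_split hS e hA,
    fun _ _ _ e _ hS _ hJ h => circle_split hS e hJ h,
    fun _ _ _ e _ _ hδ h => plus_bound e hδ h,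
    fun _ _ μ K δ h => field_plus μ K δ h,
    fun _ _ μ K h => field_split μ K h⟩

end Pool.Agent.Results.MP_5a30bb_gt.SplittingThreeThree
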